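import Mathlib

set_option autoImplicit false

/-!
# The minimal Boolean (m,0)-product is not the smallest one (MP_27bb78_al, Q1)

For every infinite cardinal `m` the family of countably many four-element algebras has an
`(m,0)`-product, the power set algebra of a countable dense subset of the Cantor space, such that no
`(m,0)`-product is below both this product and the minimal product (the regular open algebra of the
Cantor space).  So the minimal product is not the smallest element of the class of all
`(m,0)`-products, and this class has no smallest element at all.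
-/

namespace Pool.Agent.Results.MP_27bb78_al.NoSmallest

open Cardinal

/-- `B` is a Boolean `m`-algebra: all joins and meets of at most `m` elements exist. -/
def IsMAlgebra (m : Cardinal.{0}) (B : Type) [BooleanAlgebra B] : Prop :=
  ∀ s : Set B, #s ≤ m → (∃ a, IsLUB s a) ∧ ∃ a, IsGLB s a

/-- `h` is an `m`-homomorphism: it preserves complements and every existing join and meet of at
most `m` elements (in particular `⊥`, `⊤` and the finite joins and meets). -/
def IsMHom (m : Cardinal.{0}) {B C : Type} [BooleanAlgebra B] [BooleanAlgebra C] (h : B → C) :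
    Prop :=
  (∀ a, h aᶜ = (h a)ᶜ) ∧
  (∀ (s : Set B) (a : B), #s ≤ m → IsLUB s a → IsLUB (h '' s) (h a)) ∧
  ∀ (s : Set B) (a : B), #s ≤ m → IsGLB s a → IsGLB (h '' s) (h a)

/-- `S` is an `m`-subalgebra: it is closed under complements and under the existing joins and meets
of at most `m` elements (in particular it contains `⊥` and `⊤`). -/
def IsMSubalgebra (m : Cardinal.{0}) {B : Type} [BooleanAlgebra B] (S : Set B) : Prop :=
  (∀ a ∈ S, aᶜ ∈ S) ∧
  (∀ (s : Set B) (a : B), s ⊆ S → #s ≤ m → IsLUB s a → a ∈ S) ∧
  ∀ (s : Set B) (a : B), s ⊆ S → #s ≤ m → IsGLB s a → a ∈ S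

/-- The pair `(i, B)` is a Boolean `(m,0)`-product of the algebras `A t`. -/
structure IsProduct (m : Cardinal.{0}) {T : Type} {A : T → Type} [∀ t, BooleanAlgebra (A t)]
    {B : Type} [BooleanAlgebra B] (i : ∀ t, A t → B) : Prop where
  /-- `B` is an `m`-algebra -/
  complete : IsMAlgebra m B
  /-- the `i t` are `m`-isomorphisms into `B` -/
  iso : ∀ t, IsMHom m (i t) ∧ Function.Injective (i t)
  /-- the images are independent -/
  indep : ∀ (F : Finset T) (a : ∀ t, A t), (∀ t ∈ F, a t ≠ ⊥) → F.inf (fun t => i t (a t)) ≠ ⊥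
  /-- the images generate `B` -/
  gen : ∀ S : Set B, IsMSubalgebra m S → (∀ t a, i t a ∈ S) → S = Set.univ

/-- The finite meets of elements of the images are dense in `B`. -/
def IsMinimal {T : Type} {A : T → Type} [∀ t, BooleanAlgebra (A t)]
    {B : Type} [BooleanAlgebra B] (i : ∀ t, A t → B) : Prop :=
  ∀ b : B, b ≠ ⊥ → ∃ (F : Finset T) (a : ∀ t, A t), (∀ t ∈ F, a t ≠ ⊥) ∧
    F.inf (fun t => i t (a t)) ≤ b

/-- The order of the products: `(i', B') ≤ (i, B)` if some `m`-homomorphism `h : B → B'` satisfies
`i' t = h ∘ i t` for all `t`. -/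
def ProdLE (m : Cardinal.{0}) {T : Type} {A : T → Type} {B' B : Type} [BooleanAlgebra B']
    [BooleanAlgebra B] (i' : ∀ t, A t → B') (i : ∀ t, A t → B) : Prop :=
  ∃ h : B → B', IsMHom m h ∧ ∀ t a, i' t a = h (i t a)

/-! ### The power set of a countable dense set -/

open Classical in
/-- The coordinate embeddings into the power set of the countable set of the points of the Cantor
space `ℕ → Bool` with finite support (identified with the finite sets of natural numbers). -/
noncomputable def iD (t : ℕ) (E : Set Bool) : Set (Finset ℕ) := {G | decide (t ∈ G) ∈ E}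

theorem mem_iD {t : ℕ} {E : Set Bool} {G : Finset ℕ} : G ∈ iD t E ↔ decide (t ∈ G) ∈ E := by
  unfold iD
  simp only [Set.mem_ofPred_eq]

/-- the least upper bounds of sets of sets are unions -/
theorem lub_iff {α : Type} {s : Set (Set α)} {a : Set α} : IsLUB s a ↔ a = ⋃₀ s := by
  constructor
  · intro h
    exact h.unique (isLUB_sSup s)
  · rintro rfl
    exact isLUB_sSup s

theorem glb_iff {α : Type} {s : Set (Set α)} {a : Set α} : IsGLB s a ↔ a = ⋂₀ s := by
  constructor
  · intro h
    exact h.unique (isGLB_sInf s)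
  · rintro rfl
    exact isGLB_sInf s

theorem countable_le {m : Cardinal.{0}} (hm : ℵ₀ ≤ m) {α : Type} {s : Set α} (hs : s.Countable) :
    #s ≤ m :=
  (Cardinal.mk_le_aleph0_iff.2 hs.to_subtype).trans hm

/-- the point with a given finite support -/
theorem exists_finset (F : Finset ℕ) (a : ∀ _ : ℕ, Set Bool) (h : ∀ t ∈ F, a t ≠ ⊥) :
    ∃ G : Finset ℕ, ∀ t ∈ F, decide (t ∈ G) ∈ a t := by
  classical
  refine ⟨F.filter (fun t => true ∈ a t), fun t ht => ?_⟩
  obtain ⟨b, hb⟩ := Set.nonempty_iff_ne_empty.2 (h t ht)
  by_cases h1 : true ∈ a t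
  · simp [ht, h1]
  · have : b = false := by
      cases b
      · rfl
      · exact absurd hb h1
    subst this
    simp only [Finset.mem_filter, ht, h1, and_false, decide_false]
    exact hb

theorem finset_inf_set {α : Type} (F : Finset ℕ) (f : ℕ → Set α) (x : α) :
    x ∈ F.inf f ↔ ∀ t ∈ F, x ∈ f t := by
  classical
  induction F using Finset.induction_on with
  | empty => simp
  | insert a s ha ih =>
    rw [Finset.inf_insert]
    simp only [Set.inf_eq_inter, Set.mem_inter_iff, ih, Finset.mem_insert, forall_eq_or_imp]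

theorem iD_product {m : Cardinal.{0}} (hm : ℵ₀ ≤ m) : IsProduct m iD where
  complete := fun s _ => ⟨⟨_, isLUB_sSup s⟩, ⟨_, isGLB_sInf s⟩⟩
  iso := by
    intro t
    refine ⟨⟨?_, ?_, ?_⟩, ?_⟩
    · intro a
      ext G
      simp [mem_iD]
    · intro s a _ h
      rw [lub_iff] at h ⊢
      subst h
      ext G
      simp [mem_iD]
    · intro s a _ h
      rw [glb_iff] at h ⊢
      subst h
      ext G
      simp [mem_iD]
    · intro E E' h
      ext b
      have key : ∀ b : Bool, ∃ G : Finset ℕ, decide (t ∈ G) = b := by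
        intro b
        cases b
        · exact ⟨∅, by simp⟩
        · exact ⟨{t}, by simp⟩
      obtain ⟨G, rfl⟩ := key b
      rw [← mem_iD, ← mem_iD, h]
  indep := by
    intro F a ha h0
    obtain ⟨G, hG⟩ := exists_finset F a ha
    have : G ∈ F.inf (fun t => iD t (a t)) := by
      rw [finset_inf_set]
      intro t ht
      exact mem_iD.2 (hG t ht)
    rw [h0] at this
    exact this
  gen := by
    intro S hS hi
    obtain ⟨-, h2, h3⟩ := hS
    have hpt : ∀ G : Finset ℕ, ({G} : Set (Finset ℕ)) ∈ S := by
      intro G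
      refine h3 (Set.range fun t => iD t {decide (t ∈ G)}) _ ?_ ?_ ?_
      · rintro _ ⟨t, rfl⟩
        exact hi _ _
      · exact countable_le hm (Set.countable_range _)
      · rw [glb_iff]
        ext H
        simp only [Set.mem_singleton_iff, Set.sInter_range, Set.mem_iInter, mem_iD,
          decide_eq_decide]
        exact ⟨fun h t => by rw [h], fun h => Finset.ext h⟩
    ext X
    simp only [Set.mem_univ, iff_true]
    refine h2 ((fun G => ({G} : Set (Finset ℕ))) '' X) X ?_ ?_ ?_
    · rintro _ ⟨G, -, rfl⟩
      exact hpt G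
    · exact countable_le hm (Set.countable_range (fun G : Finset ℕ => ({G} : Set (Finset ℕ)))
        |>.mono (Set.image_subset_range _ _))
    · rw [lub_iff]
      ext G
      simp

/-! ### The regular open algebra of the Cantor space -/

open TopologicalSpace Heyting

/-- the Cantor space -/
abbrev X : Type := ℕ → Bool

/-- the regular open algebra -/
abbrev M : Type := Heyting.Regular (Opens X)

/-- the open set of the points whose coordinate `t` lies in `E` -/
def cyl (t : ℕ) (E : Set Bool) : Opens X :=
  ⟨{x | x t ∈ E}, (isOpen_discrete E).preimage (continuous_apply t)⟩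

theorem cyl_compl (t : ℕ) (E : Set Bool) : (cyl t E)ᶜ = cyl t Eᶜ := by
  apply le_antisymm
  · intro x hx
    by_contra h
    have h1 : x ∈ cyl t E := by
      change x t ∈ E
      by_contra h2
      exact h h2
    have h2 : x ∈ cyl t E ⊓ (cyl t E)ᶜ := ⟨h1, hx⟩
    rw [inf_compl_eq_bot] at h2
    exact h2
  · rw [le_compl_iff_disjoint_right, disjoint_iff_inf_le]
    rintro x ⟨h1, h2⟩
    exact absurd h2 h1

theorem cyl_regular (t : ℕ) (E : Set Bool) : Heyting.IsRegular (cyl t E) := by
  rw [Heyting.IsRegular, cyl_compl, cyl_compl, compl_compl]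

/-- the coordinate embeddings -/
def jM (t : ℕ) (E : Set Bool) : M := ⟨cyl t E, cyl_regular t E⟩

/-- the membership of points in a regular open set -/
def Mem (x : X) (b : M) : Prop := x ∈ (b : Opens X)

theorem mle_iff {b c : M} : b ≤ c ↔ ∀ x, Mem x b → Mem x c := Iff.rfl

theorem mem_jM {x : X} {t : ℕ} {E : Set Bool} : Mem x (jM t E) ↔ x t ∈ E := Iff.rfl

theorem mem_finf (F : Finset ℕ) (f : ℕ → M) (x : X) :
    Mem x (F.inf f) ↔ ∀ t ∈ F, Mem x (f t) := by
  classical
  induction F using Finset.induction_on with
  | empty =>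
    simp only [Finset.inf_empty, Finset.notMem_empty, false_imp_iff, imp_true_iff, iff_true]
    exact trivial
  | insert a s ha ih =>
    rw [Finset.inf_insert]
    simp only [Finset.mem_insert, forall_eq_or_imp, ← ih]
    exact Iff.rfl

theorem not_mem_bot (x : X) : ¬ Mem x (⊥ : M) := fun h => h

/-- the basic regular open sets -/
def basic (F G : Finset ℕ) : M := F.inf (fun t => jM t {decide (t ∈ G)})

theorem exists_basic {x : X} {b : M} (h : Mem x b) : ∃ F G, Mem x (basic F G) ∧ basic F G ≤ b := by
  obtain ⟨F, u, hu, hsub⟩ := isOpen_pi_iff.1 (b : Opens X).isOpen x h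
  refine ⟨F, F.filter (fun t => x t = true), ?_, ?_⟩
  · rw [basic, mem_finf]
    intro t ht
    rw [mem_jM]
    simp [ht]
  · rw [mle_iff]
    intro y hy
    rw [basic, mem_finf] at hy
    apply hsub
    intro t ht
    have := hy t ht
    rw [mem_jM] at this
    simp only [Finset.mem_coe] at ht
    simp only [Finset.mem_filter, ht, true_and, Set.mem_singleton_iff] at this
    have hxy : y t = x t := by
      rw [this]
      simp
    rw [hxy]
    exact (hu t ht).2

theorem exists_mem {b : M} (h : b ≠ ⊥) : ∃ x, Mem x b := by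
  by_contra hcon
  rw [not_exists] at hcon
  apply h
  apply le_antisymm _ bot_le
  rw [mle_iff]
  intro x hx
  exact absurd hx (hcon x)

theorem jM_minimal : IsMinimal jM := by
  intro b hb
  obtain ⟨x, hx⟩ := exists_mem hb
  obtain ⟨F, G, -, h⟩ := exists_basic hx
  exact ⟨F, fun t => {decide (t ∈ G)}, fun t _ => Set.singleton_ne_empty _, h⟩

theorem mlub (s : Set M) : ∃ a, IsLUB s a := by
  refine ⟨Regular.toRegular (sSup (Regular.val '' s)), ?_, ?_⟩
  · intro b hb
    have h1 : (b : Opens X) ≤ sSup (Regular.val '' s) := le_sSup ⟨b, hb, rfl⟩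
    have := Regular.toRegular.monotone h1
    rwa [Regular.toRegular_coe] at this
  · intro c hc
    have h1 : sSup (Regular.val '' s) ≤ (c : Opens X) := by
      apply sSup_le
      rintro _ ⟨b, hb, rfl⟩
      exact hc hb
    have := Regular.toRegular.monotone h1
    rwa [Regular.toRegular_coe] at this

theorem mglb (s : Set M) : ∃ a, IsGLB s a := by
  obtain ⟨a, ha⟩ := mlub (lowerBounds s)
  exact ⟨a, isLUB_lowerBounds.1 ha⟩

theorem jM_product {m : Cardinal.{0}} (hm : ℵ₀ ≤ m) : IsProduct m jM where
  complete := fun s _ => ⟨mlub s, mglb s⟩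
  iso := by
    intro t
    refine ⟨⟨?_, ?_, ?_⟩, ?_⟩
    · intro E
      apply Regular.coe_injective
      change cyl t Eᶜ = (cyl t E)ᶜ
      rw [cyl_compl]
    · intro s a _ h
      rw [lub_iff] at h
      subst h
      constructor
      · rintro _ ⟨E, hE, rfl⟩
        rw [mle_iff]
        intro x hx
        rw [mem_jM] at hx ⊢
        exact ⟨E, hE, hx⟩
      · intro c hc
        rw [mle_iff]
        intro x hx
        rw [mem_jM] at hx
        obtain ⟨E, hE, hxE⟩ := hx
        exact mle_iff.1 (hc ⟨E, hE, rfl⟩) x (mem_jM.2 hxE)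
    · intro s a _ h
      rw [glb_iff] at h
      subst h
      constructor
      · rintro _ ⟨E, hE, rfl⟩
        rw [mle_iff]
        intro x hx
        rw [mem_jM] at hx ⊢
        exact hx E hE
      · intro c hc
        rw [mle_iff]
        intro x hx
        rw [mem_jM]
        intro E hE
        exact mem_jM.1 (mle_iff.1 (hc ⟨E, hE, rfl⟩) x hx)
    · intro E E' h
      ext b
      have h1 : Mem (fun _ => b) (jM t E) ↔ Mem (fun _ => b) (jM t E') := by rw [h]
      exact h1
  indep := by
    intro F a ha h0
    obtain ⟨G, hG⟩ := exists_finset F a ha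
    have : Mem (fun t => decide (t ∈ G)) (F.inf (fun t => jM t (a t))) := by
      rw [mem_finf]
      intro t ht
      exact hG t ht
    rw [h0] at this
    exact not_mem_bot _ this
  gen := by
    intro S hS hi
    obtain ⟨-, h2, h3⟩ := hS
    have hb : ∀ F G : Finset ℕ, basic F G ∈ S := by
      intro F G
      refine h3 ((fun t => jM t {decide (t ∈ G)}) '' (F : Set ℕ)) _ ?_ ?_ ?_
      · rintro _ ⟨t, -, rfl⟩
        exact hi _ _
      · exact countable_le hm (F.countable_toSet.image _)
      · constructor
        · rintro _ ⟨t, ht, rfl⟩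
          exact Finset.inf_le ht
        · intro c hc
          exact Finset.le_inf fun t ht => hc ⟨t, ht, rfl⟩
    ext b
    simp only [Set.mem_univ, iff_true]
    refine h2 {c | ∃ F G, c = basic F G ∧ basic F G ≤ b} b ?_ ?_ ?_
    · rintro _ ⟨F, G, rfl, -⟩
      exact hb F G
    · refine countable_le hm ((Set.countable_range
        (fun p : Finset ℕ × Finset ℕ => basic p.1 p.2)).mono ?_)
      rintro _ ⟨F, G, rfl, -⟩
      exact ⟨(F, G), rfl⟩
    · constructor
      · rintro _ ⟨F, G, rfl, h⟩
        exact h
      · intro c hc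
        rw [mle_iff]
        intro x hx
        obtain ⟨F, G, h1, h2⟩ := exists_basic hx
        exact mle_iff.1 (hc ⟨F, G, rfl, h2⟩) x h1

/-! ### The incompatibility -/

/-- in a minimal product the meet of the values at the coordinates of a point is zero -/
theorem minimal_glb {m : Cardinal.{0}} {B : Type} [BooleanAlgebra B] {j : ℕ → Set Bool → B}
    (hj : IsProduct m j) (hmin : IsMinimal j) (x : ℕ → Bool) :
    IsGLB (Set.range fun t => j t {x t}) ⊥ := by
  refine ⟨fun _ _ => bot_le, fun b hb => ?_⟩
  by_contra hne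
  obtain ⟨F, a, ha, hle⟩ := hmin b (fun h => hne (by rw [h]))
  obtain ⟨t, ht⟩ := F.exists_notMem
  have h1 : F.inf (fun u => j u (a u)) ≤ j t {x t} := hle.trans (hb ⟨t, rfl⟩)
  classical
  apply hj.indep (insert t F) (Function.update a t {x t}ᶜ)
  · intro u hu
    rcases Finset.mem_insert.1 hu with rfl | hu
    · rw [Function.update_self]
      intro h
      have : (!(x u)) ∈ ({x u}ᶜ : Set Bool) := by simp
      rw [h] at this
      exact this
    · rw [Function.update_of_ne (fun h => ht (by rwa [← h]))]
      exact ha u hu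
  · rw [Finset.inf_insert, Function.update_self, (hj.iso t).1.1, ← le_bot_iff]
    have h2 : F.inf (fun u => j u (Function.update a t {x t}ᶜ u)) = F.inf (fun u => j u (a u)) := by
      apply Finset.inf_congr rfl
      intro u hu
      rw [Function.update_of_ne (fun h => ht (by rwa [← h]))]
    rw [h2]
    exact (inf_le_inf_left _ h1).trans (compl_inf_eq_bot).le

/-- **Main result.**  For every infinite cardinal `m` there are four-element Boolean algebras `A t`,
`t = 0, 1, 2, ...`, which have a minimal `(m,0)`-product and an `(m,0)`-product `(i, B)` such that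
for every minimal `(m,0)`-product `(j, N)` there is no `m`-homomorphism `h : B → N` with
`j t = h ∘ i t` for all `t`; and even no `(m,0)`-product is `≤ (i, B)` and `≤ (j, N)`.  So the
minimal product is not the smallest element of the class of all `(m,0)`-products, and this class has
no smallest element. -/
theorem result : ∀ m : Cardinal.{0}, ℵ₀ ≤ m →
    ∃ (A : ℕ → Type) (_ : ∀ t, BooleanAlgebra (A t)),
      (∀ t, Nontrivial (A t) ∧ Nat.card (A t) = 4) ∧
      (∃ (N : Type) (_ : BooleanAlgebra N) (j : ∀ t, A t → N), IsProduct m j ∧ IsMinimal j) ∧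
      ∃ (B : Type) (_ : BooleanAlgebra B) (i : ∀ t, A t → B), IsProduct m i ∧
        ∀ (N : Type) (_ : BooleanAlgebra N) (j : ∀ t, A t → N), IsProduct m j → IsMinimal j →
          ¬ ProdLE m j i ∧
          ∀ (C : Type) (_ : BooleanAlgebra C) (k : ∀ t, A t → C), IsProduct m k →
            ¬ (ProdLE m k i ∧ ProdLE m k j) := by
  intro m hm
  have hone : (1 : Cardinal.{0}) ≤ m := Cardinal.one_le_aleph0.trans hm
  have key : ∀ (N : Type) (_ : BooleanAlgebra N) (j : ℕ → Set Bool → N), IsProduct m j →
      IsMinimal j → ∀ (C : Type) (_ : BooleanAlgebra C) (k : ℕ → Set Bool → C), IsProduct m k →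
            ¬ (ProdLE m k iD ∧ ProdLE m k j) := by
    rintro N _ j hj hmin C _ k hk ⟨⟨h, hh, hki⟩, ⟨g, hg, hkj⟩⟩
    have hpt : ∀ G : Finset ℕ, h {G} = ⊥ := by
      intro G
      have h1 : IsGLB (Set.range fun t => iD t {decide (t ∈ G)}) {G} := by
        rw [glb_iff]
        ext H
        simp only [Set.mem_singleton_iff, Set.sInter_range, Set.mem_iInter, mem_iD,
          decide_eq_decide]
        exact ⟨fun h t => by rw [h], fun h => Finset.ext h⟩
      have h2 := hh.2.2 _ _ (countable_le hm (Set.countable_range _)) h1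
      have h3 := hg.2.2 _ _ (countable_le hm (Set.countable_range _))
        (minimal_glb hj hmin (fun t => decide (t ∈ G)))
      have h4 : g ⊥ = ⊥ := by
        have := hg.2.1 ∅ ⊥ (by simp) isLUB_empty
        rw [Set.image_empty] at this
        exact this.unique isLUB_empty
      rw [← Set.range_comp] at h2 h3
      have h5 : (h ∘ fun t => iD t {decide (t ∈ G)}) = (g ∘ fun t => j t {decide (t ∈ G)}) := by
        funext t
        simp only [Function.comp_apply]
        rw [← hki, ← hkj]
      rw [h5] at h2
      exact (h2.unique h3).trans h4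
    have h6 : IsLUB (Set.range fun G : Finset ℕ => ({G} : Set (Finset ℕ))) ⊤ := by
      rw [lub_iff]
      ext G
      simp
    have h7 := hh.2.1 _ _ (countable_le hm (Set.countable_range _)) h6
    have h8 : h ⊤ ≤ ⊥ := by
      apply h7.2
      rintro _ ⟨_, ⟨G, rfl⟩, rfl⟩
      rw [hpt]
    have h9 : h ⊤ = ⊤ := by
      have := hh.2.2 ∅ ⊤ (by simp) isGLB_empty
      rw [Set.image_empty] at this
      exact this.unique isGLB_empty
    rw [h9] at h8
    have h10 := hk.indep ∅ (fun _ => ⊤) (by simp)
    rw [Finset.inf_empty] at h10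
    exact h10 (le_bot_iff.1 h8)
  refine ⟨fun _ => Set Bool, inferInstance, fun _ => ⟨inferInstance, by simp [Nat.card_eq_fintype_card]⟩,
    ⟨M, inferInstance, jM, jM_product hm, jM_minimal⟩,
    Set (Finset ℕ), inferInstance, iD, iD_product hm, ?_⟩
  intro N _ j hj hmin
  refine ⟨fun hle => key N _ j hj hmin N _ j hj ⟨hle, id, ?_, fun _ _ => rfl⟩,
    fun C _ k hk => key N _ j hj hmin C _ k hk⟩
  exact ⟨fun _ => rfl, fun s a _ h => by rwa [Set.image_id], fun s a _ h => by rwa [Set.image_id]⟩

end Pool.Agent.Results.MP_27bb78_al.NoSmallest
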